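import Mathlib

set_option autoImplicit false

open Polynomial Polynomial.Bivariate

namespace Pool.Agent.K7.H11.FO

variable {K E : Type*} [Field K] [Field E] [Algebra K E]

/-- the valuation subring contains the constants -/
def HasConst (K : Type*) [Field K] {E : Type*} [Field E] [Algebra K E] (V : ValuationSubring E) :
    Prop := ∀ c : K, algebraMap K E c ∈ V

theorem val_const {V : ValuationSubring E} (hV : HasConst K V) {c : K} (hc : c ≠ 0) :
    V.valuation (algebraMap K E c) = 1 := by
  have h1 : V.valuation (algebraMap K E c) ≤ 1 := (V.valuation_le_one_iff _).2 (hV c)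
  have h2 : V.valuation (algebraMap K E c⁻¹) ≤ 1 := (V.valuation_le_one_iff _).2 (hV c⁻¹)
  have h3 : V.valuation (algebraMap K E c) * V.valuation (algebraMap K E c⁻¹) = 1 := by
    rw [← map_mul, ← map_mul, mul_inv_cancel₀ hc, map_one, map_one]
  refine le_antisymm h1 ?_
  calc (1 : V.ValueGroup) = V.valuation (algebraMap K E c) * V.valuation (algebraMap K E c⁻¹) :=
        h3.symm
    _ ≤ V.valuation (algebraMap K E c) * 1 := by gcongr
    _ = _ := mul_one _

/-- polynomials in elements of `V` are in `V` -/
theorem aeval_mem {V : ValuationSubring E} (hV : HasConst K V) {x : E} (hx : x ∈ V) (f : K[X]) :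
    aeval x f ∈ V := by
  rw [aeval_eq_sum_range]
  refine sum_mem fun i _ => ?_
  rw [Algebra.smul_def]
  exact mul_mem (hV _) (pow_mem hx _)

theorem aevalAeval_mem {V : ValuationSubring E} (hV : HasConst K V) {x y : E} (hx : x ∈ V)
    (hy : y ∈ V) (P : K[X][Y]) : P.aevalAeval x y ∈ V := by
  induction P using Polynomial.induction_on' with
  | add p q hp hq => rw [map_add]; exact add_mem hp hq
  | monomial n f =>
    rw [← C_mul_X_pow_eq_monomial, map_mul, map_pow, aevalAeval_C, aevalAeval_Y]
    exact mul_mem (aeval_mem hV hx f) (pow_mem hy _)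

theorem lt_one_of_mul_mem {V : ValuationSubring E} {a b : E} (ha : V.valuation a < 1)
    (hb : b ∈ V) : V.valuation (a * b) < 1 := by
  rw [map_mul]
  calc V.valuation a * V.valuation b ≤ V.valuation a * 1 := by
        gcongr
        exact (V.valuation_le_one_iff _).2 hb
    _ < 1 := by rwa [mul_one]

/-- congruent elements modulo the maximal ideal, one a unit -/
theorem val_eq_one {V : ValuationSubring E} {a b : E} (h : V.valuation (a - b) < 1)
    (hb : V.valuation b = 1) : V.valuation a = 1 := by
  have h1 : V.valuation (b + (a - b)) = V.valuation b :=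
    Valuation.map_add_eq_of_lt_left _ (by rwa [hb])
  rw [add_sub_cancel] at h1
  rw [h1, hb]

/-- `f(x)` is congruent to `f(a)` -/
theorem aeval_sub {V : ValuationSubring E} (hV : HasConst K V) {x : E} (hx : x ∈ V) {a : K}
    (ha : V.valuation (x - algebraMap K E a) < 1) (f : K[X]) :
    V.valuation (aeval x f - algebraMap K E (f.eval a)) < 1 := by
  obtain ⟨g, hg⟩ := X_sub_C_dvd_sub_C_eval (a := a) (p := f)
  have h1 : aeval x f - algebraMap K E (f.eval a) = (x - algebraMap K E a) * aeval x g := by
    have := congrArg (aeval x) hg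
    simpa using this
  rw [h1]
  exact lt_one_of_mul_mem ha (aeval_mem hV hx g)

/-- the decomposition `P = (X - a) U + P(a, Y)` -/
theorem exists_decomp (P : K[X][Y]) (a : K) :
    ∃ U : K[X][Y], P = C (X - C a) * U + (P.map (evalRingHom a)).map C := by
  have h : C (X - C a) ∣ P - (P.map (evalRingHom a)).map C := by
    rw [C_dvd_iff_dvd_coeff]
    intro i
    rw [coeff_sub, coeff_map, coeff_map]
    exact X_sub_C_dvd_sub_C_eval
  obtain ⟨U, hU⟩ := h
  exact ⟨U, by rw [← hU]; ring⟩

theorem aevalAeval_map_C (x y : E) (f : K[X]) : (f.map C).aevalAeval x y = aeval y f := by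
  induction f using Polynomial.induction_on' with
  | add p q hp hq => rw [Polynomial.map_add, map_add, map_add, hp, hq]
  | monomial n c =>
    rw [map_monomial, ← C_mul_X_pow_eq_monomial, ← C_mul_X_pow_eq_monomial, map_mul, map_pow,
      aevalAeval_C, aevalAeval_Y, map_mul, map_pow, aeval_X, aeval_C, aeval_C]

/-- `P(x,y)` is congruent to `P(a,y)` -/
theorem sub_left {V : ValuationSubring E} (hV : HasConst K V) {x y : E} (hx : x ∈ V) (hy : y ∈ V)
    {a : K} (ha : V.valuation (x - algebraMap K E a) < 1) (P : K[X][Y]) :
    V.valuation (P.aevalAeval x y - aeval y (P.map (evalRingHom a))) < 1 := by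
  obtain ⟨U, hU⟩ := exists_decomp P a
  have h1 : P.aevalAeval x y - aeval y (P.map (evalRingHom a)) =
      (x - algebraMap K E a) * U.aevalAeval x y := by
    have h2 := congrArg (fun Q : K[X][Y] => Q.aevalAeval x y) hU
    rw [map_add, map_mul, aevalAeval_map_C, aevalAeval_C, map_sub, aeval_X, aeval_C] at h2
    rw [h2]
    ring
  rw [h1]
  exact lt_one_of_mul_mem ha (aevalAeval_mem hV hx hy U)

/-- at a point where both partial derivatives do not vanish the two coordinates have the same
valuation -/
theorem val_eq {V : ValuationSubring E} (hV : HasConst K V) {x y : E} (hx : x ∈ V) (hy : y ∈ V)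
    {a b : K} (ha : V.valuation (x - algebraMap K E a) < 1)
    (hb : V.valuation (y - algebraMap K E b) < 1) {P : K[X][Y]} (hP : P.aevalAeval x y = 0)
    (hab : P.evalEval a b = 0) (hdy : (derivative P).evalEval a b ≠ 0)
    (hdx : (derivative (swap P)).evalEval b a ≠ 0) :
    V.valuation (x - algebraMap K E a) = V.valuation (y - algebraMap K E b) := by
  obtain ⟨U, hU⟩ := exists_decomp P a
  set f : K[X] := P.map (evalRingHom a) with hf
  have hfb : f.eval b = 0 := by rw [hf, map_evalRingHom_eval]; exact hab
  obtain ⟨T, hT⟩ := dvd_iff_isRoot.2 (show f.IsRoot b from hfb)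
  -- the equation
  have h0 : (x - algebraMap K E a) * U.aevalAeval x y + (y - algebraMap K E b) * aeval y T = 0 := by
    have h1 := congrArg (fun Q : K[X][Y] => Q.aevalAeval x y) hU
    rw [map_add, map_mul, aevalAeval_map_C, aevalAeval_C, hP, hT] at h1
    rw [h1]
    simp
  -- values of `T` and `U`
  have hTb : T.eval b ≠ 0 := by
    intro h
    apply hdy
    have h1 : (derivative P).evalEval a b = (derivative f).eval b := by
      rw [hf, derivative_map, map_evalRingHom_eval]
    rw [h1, hT]
    simp [h]
  have hUab : U.evalEval a b ≠ 0 := by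
    intro h
    apply hdx
    have h1 : swap P = (X - C (C a)) * swap U + C f := by
      conv_lhs => rw [hU]
      rw [map_add, map_mul, swap_C, swap_map_C]
      simp
    rw [h1]
    have h2 : (swap U).evalEval b a = 0 := by
      have := aevalAeval_swap (A := K) b a U
      rw [coe_aevalAeval_eq_evalEval, coe_aevalAeval_eq_evalEval] at this
      rw [this, h]
    simp [evalEval_add, evalEval_mul, h2]
  have hT1 : V.valuation (aeval y T) = 1 :=
    val_eq_one (aeval_sub hV hy hb T) (val_const hV hTb)
  have hU1 : V.valuation (U.aevalAeval x y) = 1 := by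
    have h1 := sub_left hV hx hy ha U
    have h2 := aeval_sub hV hy hb (U.map (evalRingHom a))
    have h3 : (U.map (evalRingHom a)).eval b = U.evalEval a b := map_evalRingHom_eval _ _ _
    rw [h3] at h2
    exact val_eq_one h1 (val_eq_one h2 (val_const hV hUab))
  have h1 : (x - algebraMap K E a) * U.aevalAeval x y = -((y - algebraMap K E b) * aeval y T) := by
    linear_combination h0
  have h2 := congrArg V.valuation h1
  rw [Valuation.map_neg, map_mul, map_mul, hU1, hT1, mul_one, mul_one] at h2
  exact h2

/-- if the leading coefficient does not vanish at `a` and `x` specialises to `a` then `y` is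
finite -/
theorem mem_of_lead {V : ValuationSubring E} (hV : HasConst K V) {x y : E} (hx : x ∈ V)
    {a : K} (ha : V.valuation (x - algebraMap K E a) < 1) {P : K[X][Y]}
    (hP : P.aevalAeval x y = 0) (hlc : P.leadingCoeff.eval a ≠ 0) : y ∈ V := by
  by_contra hy
  have hy1 : 1 < V.valuation y := by
    rw [← not_le, V.valuation_le_one_iff]
    exact hy
  have hP0 : P ≠ 0 := by
    rintro rfl
    simp at hlc
  have hl1 : V.valuation (aeval x P.leadingCoeff) = 1 :=
    val_eq_one (aeval_sub hV hx ha _) (val_const hV hlc)
  -- P(x,y) = sum of coefficients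
  have h1 : P.aevalAeval x y = ∑ i ∈ Finset.range (P.natDegree + 1), aeval x (P.coeff i) * y ^ i := by
    conv_lhs => rw [P.as_sum_range_C_mul_X_pow]
    rw [map_sum]
    refine Finset.sum_congr rfl fun i _ => ?_
    rw [map_mul, map_pow, aevalAeval_C, aevalAeval_Y]
  rw [hP, Finset.sum_range_succ] at h1
  have h2 : V.valuation (∑ i ∈ Finset.range P.natDegree, aeval x (P.coeff i) * y ^ i) <
      V.valuation (aeval x (P.coeff P.natDegree) * y ^ P.natDegree) := by
    have hlt : (0 : V.ValueGroup) <
        V.valuation (aeval x (P.coeff P.natDegree) * y ^ P.natDegree) := by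
      rw [map_mul, coeff_natDegree, hl1, one_mul, map_pow]
      exact pow_pos (zero_lt_one.trans hy1) _
    refine Valuation.map_sum_lt _ hlt.ne' fun i hi => ?_
    rw [Finset.mem_range] at hi
    rw [map_mul, map_mul, coeff_natDegree, hl1, one_mul, map_pow, map_pow]
    calc V.valuation (aeval x (P.coeff i)) * V.valuation y ^ i ≤ 1 * V.valuation y ^ i := by
          gcongr
          exact (V.valuation_le_one_iff _).2 (aeval_mem hV hx _)
      _ = V.valuation y ^ i := one_mul _
      _ < V.valuation y ^ P.natDegree := pow_lt_pow_right₀ hy1 hi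
  have h3 := Valuation.map_add_eq_of_lt_left _ h2
  rw [add_comm, ← h1, map_zero] at h3
  rw [← h3] at h2
  exact not_lt_zero h2

end Pool.Agent.K7.H11.FO
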