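import Mathlib
import Pool.Agent.K7.H11.FO.Val

set_option autoImplicit false
set_option linter.unusedSectionVars false

open Polynomial Polynomial.Bivariate

namespace Pool.Agent.K7.H11.FO

variable {K E : Type*} [Field K] [Field E] [Algebra K E]

/-- the finite set `O` of points of `P = 0` is a union of fibres of the first coordinate, all of
which are finite and unramified -/
structure HalfGood (P : K[X][Y]) (O : Finset (K × K)) : Prop where
  zero : ∀ o ∈ O, P.evalEval o.1 o.2 = 0
  lead : ∀ o ∈ O, P.leadingCoeff.eval o.1 ≠ 0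
  closed : ∀ o ∈ O, ∀ b, P.evalEval o.1 b = 0 → (o.1, b) ∈ O
  der : ∀ o ∈ O, (derivative P).evalEval o.1 o.2 ≠ 0

variable [DecidableEq K]

/-- the points with exchanged coordinates -/
def swp (O : Finset (K × K)) : Finset (K × K) := O.image Prod.swap

theorem mem_swp {O : Finset (K × K)} {a b : K} : (a, b) ∈ swp O ↔ (b, a) ∈ O := by
  unfold swp
  rw [Finset.mem_image]
  constructor
  · rintro ⟨⟨c, d⟩, h, h'⟩
    simp only [Prod.swap_prod_mk, Prod.mk.injEq] at h'
    obtain ⟨rfl, rfl⟩ := h'
    exact h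
  · intro h
    exact ⟨(b, a), h, rfl⟩

theorem card_swp (O : Finset (K × K)) : (swp O).card = O.card :=
  Finset.card_image_of_injective _ Prod.swap_injective

def fstS (O : Finset (K × K)) : Finset K := O.image Prod.fst

theorem mem_fstS {O : Finset (K × K)} {a : K} : a ∈ fstS O ↔ ∃ b, (a, b) ∈ O := by
  unfold fstS
  rw [Finset.mem_image]
  constructor
  · rintro ⟨⟨c, d⟩, h, rfl⟩
    exact ⟨d, h⟩
  · rintro ⟨b, h⟩
    exact ⟨(a, b), h, rfl⟩

theorem mem_fstS_swp {O : Finset (K × K)} {b : K} : b ∈ fstS (swp O) ↔ ∃ a, (a, b) ∈ O := by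
  rw [mem_fstS]
  simp_rw [mem_swp]

structure Good (P : K[X][Y]) (O : Finset (K × K)) : Prop where
  left : HalfGood P O
  right : HalfGood (swap P) (swp O)

theorem evalEval_swap (P : K[X][Y]) (a b : K) : (swap P).evalEval b a = P.evalEval a b := by
  have := aevalAeval_swap (A := K) b a P
  rwa [coe_aevalAeval_eq_evalEval, coe_aevalAeval_eq_evalEval] at this

theorem aevalAeval_swap' (P : K[X][Y]) (x y : E) :
    (swap P).aevalAeval y x = P.aevalAeval x y := aevalAeval_swap _ _ _

omit [DecidableEq K] in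
theorem swp_swp [DecidableEq K] (O : Finset (K × K)) : swp (swp O) = O := by
  ext ⟨a, b⟩
  rw [mem_swp, mem_swp]

theorem Good.swap {P : K[X][Y]} {O : Finset (K × K)} (h : Good P O) :
    Good (Bivariate.swap P) (swp O) := by
  refine ⟨h.right, ?_⟩
  rw [swap_swap_apply, swp_swp]
  exact h.left

theorem natDegree_fib {P : K[X][Y]} {a : K} (ha : P.leadingCoeff.eval a ≠ 0) :
    (P.map (evalRingHom a)).natDegree = P.natDegree :=
  natDegree_map_of_leadingCoeff_ne_zero _ ha

theorem HalfGood.roots {P : K[X][Y]} {O : Finset (K × K)} (h : HalfGood P O) {a : K}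
    (ha : a ∈ fstS O) {b : K} : (a, b) ∈ O ↔ b ∈ (P.map (evalRingHom a)).roots := by
  obtain ⟨b0, hb0⟩ := mem_fstS.1 ha
  have hne : P.map (evalRingHom a) ≠ 0 := by
    intro h0
    have h1 := h.lead _ hb0
    have h2 : (P.map (evalRingHom a)).coeff P.natDegree = P.leadingCoeff.eval a := by
      rw [coeff_map]; rfl
    rw [h0, coeff_zero] at h2
    exact h1 h2.symm
  rw [mem_roots hne, IsRoot, map_evalRingHom_eval]
  exact ⟨fun h1 => h.zero _ h1, fun h1 => h.closed _ hb0 b h1⟩

theorem HalfGood.nodup {P : K[X][Y]} {O : Finset (K × K)} (h : HalfGood P O) {a : K}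
    (ha : a ∈ fstS O) : (P.map (evalRingHom a)).roots.Nodup := by
  rw [Multiset.nodup_iff_count_le_one]
  intro b
  by_contra hcon
  push Not at hcon
  rw [count_roots] at hcon
  have hne : P.map (evalRingHom a) ≠ 0 := by
    intro h0
    rw [h0, rootMultiplicity_zero] at hcon
    omega
  have h1 : b ∈ (P.map (evalRingHom a)).roots := by
    rw [← Multiset.count_pos, count_roots]
    omega
  have h2 := (h.roots ha).2 h1
  have h3 := h.der _ h2
  apply h3
  have h4 : (derivative (P.map (evalRingHom a))).IsRoot b :=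
    ((one_lt_rootMultiplicity_iff_isRoot hne).1 hcon).2
  rw [derivative_map, IsRoot, map_evalRingHom_eval] at h4
  exact h4

theorem HalfGood.card [IsAlgClosed K] {P : K[X][Y]} {O : Finset (K × K)} (h : HalfGood P O) :
    O.card = (fstS O).card * P.natDegree := by
  have h1 : O.card = ∑ a ∈ fstS O, (O.filter fun o => o.1 = a).card := by
    apply Finset.card_eq_sum_card_fiberwise
    intro o ho
    exact Finset.mem_image_of_mem _ ho
  rw [h1, ← smul_eq_mul, ← Finset.sum_const]
  refine Finset.sum_congr rfl fun a ha => ?_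
  obtain ⟨b0, hb0⟩ := mem_fstS.1 ha
  have h2 : (O.filter fun o => o.1 = a).card = (P.map (evalRingHom a)).roots.toFinset.card := by
    refine Finset.card_bij (fun o _ => o.2) ?_ ?_ ?_
    · rintro ⟨c, d⟩ ho
      rw [Finset.mem_filter] at ho
      obtain ⟨ho, rfl⟩ := ho
      rw [Multiset.mem_toFinset]
      exact (h.roots ha).1 ho
    · rintro ⟨c, d⟩ ho ⟨c', d'⟩ ho' hdd
      rw [Finset.mem_filter] at ho ho'
      obtain ⟨ho, rfl⟩ := ho
      obtain ⟨ho', h2⟩ := ho'
      simp only at h2 hdd
      rw [h2, hdd]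
    · intro b hb
      rw [Multiset.mem_toFinset] at hb
      exact ⟨(a, b), Finset.mem_filter.2 ⟨(h.roots ha).2 hb, rfl⟩, rfl⟩
  rw [h2, Multiset.toFinset_card_of_nodup (h.nodup ha), ← natDegree_fib (h.lead _ hb0)]
  exact (splits_iff_card_roots.1 (IsAlgClosed.splits _))

/-- if `x` specialises to `a` then `y` specialises to some `b` with `(a, b) ∈ O` -/
theorem HalfGood.exists_snd [IsAlgClosed K] {P : K[X][Y]} {O : Finset (K × K)} (h : HalfGood P O)
    {V : ValuationSubring E} (hV : HasConst K V) {x y : E} (hx : x ∈ V) (hy : y ∈ V)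
    (hP : P.aevalAeval x y = 0) {a : K} (ha : a ∈ fstS O)
    (hxa : V.valuation (x - algebraMap K E a) < 1) :
    ∃ b, (a, b) ∈ O ∧ V.valuation (y - algebraMap K E b) < 1 := by
  by_contra hcon
  push Not at hcon
  obtain ⟨b0, hb0⟩ := mem_fstS.1 ha
  have h1 := sub_left hV hx hy hxa P
  rw [hP, zero_sub, Valuation.map_neg] at h1
  set f := P.map (evalRingHom a) with hf
  have hsp := (IsAlgClosed.splits f).eq_prod_roots
  have hlc : f.leadingCoeff ≠ 0 := by
    intro h0
    rw [leadingCoeff_eq_zero] at h0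
    have h2 : f.coeff P.natDegree = P.leadingCoeff.eval a := by
      rw [hf, coeff_map]; rfl
    rw [h0, coeff_zero] at h2
    exact h.lead _ hb0 h2.symm
  have h2 : V.valuation (aeval y f) = 1 := by
    rw [hsp, map_mul, aeval_C, map_mul, val_const hV hlc, one_mul, map_multiset_prod,
      map_multiset_prod, Multiset.map_map, Multiset.map_map]
    apply Multiset.prod_eq_one
    intro c hc
    rw [Multiset.mem_map] at hc
    obtain ⟨b, hb, rfl⟩ := hc
    have h3 := hcon b ((h.roots ha).2 hb)
    have h4 : y - algebraMap K E b ∈ V := sub_mem hy (hV b)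
    rw [← V.valuation_le_one_iff] at h4
    have h5 := le_antisymm h4 h3
    simpa using h5
  rw [h2] at h1
  exact lt_irrefl _ h1

/-- `∏ (X - a)`, over the first coordinates -/
noncomputable def alp (O : Finset (K × K)) : K[X] := ∏ a ∈ fstS O, (X - C a)

theorem aeval_alp (O : Finset (K × K)) (x : E) :
    aeval x (alp O) = ∏ a ∈ fstS O, (x - algebraMap K E a) := by
  unfold alp
  rw [map_prod]
  simp

theorem val_sub_le {V : ValuationSubring E} (hV : HasConst K V) {x : E} (hx : x ∈ V) (a : K) :
    V.valuation (x - algebraMap K E a) ≤ 1 :=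
  (V.valuation_le_one_iff _).2 (sub_mem hx (hV a))

omit [DecidableEq K] in
/-- at most one constant is congruent to `x` -/
theorem val_sub_ne {V : ValuationSubring E} (hV : HasConst K V) {x : E} {a a' : K}
    (ha : V.valuation (x - algebraMap K E a) < 1) (hne : a' ≠ a) :
    V.valuation (x - algebraMap K E a') = 1 := by
  have h1 : V.valuation (algebraMap K E (a - a')) = 1 := val_const hV (sub_ne_zero.2 hne.symm)
  refine val_eq_one (b := algebraMap K E (a - a')) ?_ h1
  rw [map_sub (algebraMap K E)]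
  have : x - algebraMap K E a' - (algebraMap K E a - algebraMap K E a') =
      x - algebraMap K E a := by ring
  rw [this]
  exact ha

theorem val_alp_eq {V : ValuationSubring E} (hV : HasConst K V) {x : E} {O : Finset (K × K)}
    {a : K} (haO : a ∈ fstS O) (ha : V.valuation (x - algebraMap K E a) < 1) :
    V.valuation (aeval x (alp O)) = V.valuation (x - algebraMap K E a) := by
  rw [aeval_alp, map_prod, ← Finset.mul_prod_erase _ _ haO, Finset.prod_eq_one, mul_one]
  intro a' ha'
  exact val_sub_ne hV ha (Finset.mem_erase.1 ha').1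

theorem val_alp_one {V : ValuationSubring E} (hV : HasConst K V) {x : E} (hx : x ∈ V)
    {O : Finset (K × K)} (h : ∀ a ∈ fstS O, ¬ V.valuation (x - algebraMap K E a) < 1) :
    V.valuation (aeval x (alp O)) = 1 := by
  rw [aeval_alp, map_prod]
  apply Finset.prod_eq_one
  intro a ha
  exact le_antisymm (val_sub_le hV hx a) (not_lt.1 (h a ha))

theorem val_alp_inf {V : ValuationSubring E} (hV : HasConst K V) {x : E} (hx : x ∉ V)
    (O : Finset (K × K)) :
    V.valuation (aeval x (alp O)) = V.valuation x ^ (fstS O).card := by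
  have hx1 : 1 < V.valuation x := by
    rw [← not_le, V.valuation_le_one_iff]
    exact hx
  rw [aeval_alp, map_prod, ← Finset.prod_const]
  refine Finset.prod_congr rfl fun a _ => ?_
  rw [sub_eq_add_neg]
  apply Valuation.map_add_eq_of_lt_left
  rw [Valuation.map_neg]
  exact lt_of_le_of_lt ((V.valuation_le_one_iff _).2 (hV a)) hx1

/-- both coordinates finite: the two products have the same valuation -/
theorem Good.val_eq [IsAlgClosed K] {P : K[X][Y]} {O : Finset (K × K)} (h : Good P O)
    {V : ValuationSubring E} (hV : HasConst K V) {x y : E} (hx : x ∈ V) (hy : y ∈ V)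
    (hP : P.aevalAeval x y = 0) :
    V.valuation (aeval x (alp O)) = V.valuation (aeval y (alp (swp O))) := by
  have hP' : (Bivariate.swap P).aevalAeval y x = 0 := by rw [aevalAeval_swap', hP]
  by_cases hA : ∃ a ∈ fstS O, V.valuation (x - algebraMap K E a) < 1
  · obtain ⟨a, haO, ha⟩ := hA
    obtain ⟨b, hab, hb⟩ := h.left.exists_snd hV hx hy hP haO ha
    have hbO : b ∈ fstS (swp O) := mem_fstS_swp.2 ⟨a, hab⟩
    rw [val_alp_eq hV haO ha, val_alp_eq hV hbO hb]
    exact FO.val_eq hV hx hy ha hb hP (h.left.zero _ hab) (h.left.der _ hab)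
      (h.right.der (b, a) (mem_swp.2 hab))
  · push Not at hA
    rw [val_alp_one hV hx (fun a ha => not_lt.2 (hA a ha)), val_alp_one hV hy]
    intro b hbO hb
    obtain ⟨a, hba, ha⟩ := h.right.exists_snd hV hy hx hP' hbO hb
    exact absurd ha (not_lt.2 (hA a (mem_fstS.2 ⟨b, mem_swp.1 hba⟩)))

/-- second coordinate infinite: the first product is a unit -/
theorem Good.val_left [IsAlgClosed K] {P : K[X][Y]} {O : Finset (K × K)} (h : Good P O)
    {V : ValuationSubring E} (hV : HasConst K V) {x y : E} (hx : x ∈ V) (hy : y ∉ V)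
    (hP : P.aevalAeval x y = 0) : V.valuation (aeval x (alp O)) = 1 := by
  apply val_alp_one hV hx
  intro a ha hxa
  obtain ⟨b, hab⟩ := mem_fstS.1 ha
  exact hy (mem_of_lead hV hx hxa hP (h.left.lead _ hab))

/-- **the unit**: a combination of two good sets has the same valuation as its counterpart -/
theorem unit_of_good [IsAlgClosed K] {P : K[X][Y]} {O₁ O₂ : Finset (K × K)} (h₁ : Good P O₁)
    (h₂ : Good P O₂) {V : ValuationSubring E} (hV : HasConst K V) {x y : E}
    (hP : P.aevalAeval x y = 0) {e₁ e₂ : ℕ} (hx' : e₁ * (fstS O₁).card = e₂ * (fstS O₂).card)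
    (hy' : e₁ * (fstS (swp O₁)).card = e₂ * (fstS (swp O₂)).card) :
    V.valuation (aeval x (alp O₁) ^ e₁ * aeval y (alp (swp O₂)) ^ e₂) =
      V.valuation (aeval x (alp O₂) ^ e₂ * aeval y (alp (swp O₁)) ^ e₁) := by
  have hP' : (Bivariate.swap P).aevalAeval y x = 0 := by rw [aevalAeval_swap', hP]
  simp only [map_mul, map_pow]
  by_cases hx : x ∈ V
  · by_cases hy : y ∈ V
    · rw [h₁.val_eq hV hx hy hP, h₂.val_eq hV hx hy hP, mul_comm]
    · rw [h₁.val_left hV hx hy hP, h₂.val_left hV hx hy hP, val_alp_inf hV hy, val_alp_inf hV hy,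
        ← pow_mul, ← pow_mul, one_pow, one_pow, one_mul, one_mul, mul_comm _ e₂, ← hy', mul_comm]
  · by_cases hy : y ∈ V
    · rw [h₁.swap.val_left hV hy hx hP', h₂.swap.val_left hV hy hx hP', val_alp_inf hV hx,
        val_alp_inf hV hx, ← pow_mul, ← pow_mul, one_pow, one_pow, mul_one, mul_one,
        mul_comm _ e₁, hx', mul_comm]
    · rw [val_alp_inf hV hx, val_alp_inf hV hx, val_alp_inf hV hy, val_alp_inf hV hy,
        ← pow_mul, ← pow_mul, ← pow_mul, ← pow_mul, mul_comm _ e₁, hx', mul_comm _ e₂, ← hy',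
        mul_comm e₂ (fstS O₂).card, mul_comm e₁ (fstS (swp O₁)).card]

end Pool.Agent.K7.H11.FO
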