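import Mathlib
import Pool.Agent.K7.H11.FO.Orb

set_option autoImplicit false
set_option linter.unusedSectionVars false

open Polynomial Polynomial.Bivariate

namespace Pool.Agent.K7.H11.FO

universe u

variable {K : Type u} [Field K]

/-- elements which lie in all valuation rings over an algebraically closed field are constants -/
theorem mem_const [IsAlgClosed K] {E : Type*} [Field E] [Algebra K E] {u : E}
    (h : ∀ V : ValuationSubring E, HasConst K V → u ∈ V) : ∃ c : K, algebraMap K E c = u := by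
  have h1 : u ∈ (integralClosure K E).toSubring := by
    by_contra hcon
    obtain ⟨V, hV, hu⟩ := Subring.exists_le_valuationSubring_of_isIntegrallyClosedIn hcon
    exact hu (h V fun c => hV ((integralClosure K E).algebraMap_mem c))
  have h2 : IsIntegral K u := h1
  have h3 := minpoly.mem_range_of_degree_eq_one K u
    (IsAlgClosed.degree_eq_one_of_irreducible K (minpoly.irreducible h2))
  exact h3

/-- the irreducible polynomial involves both variables -/
structure Mixed (P : K[X][Y]) : Prop where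
  irr : Irreducible P
  degY : P.natDegree ≠ 0
  degX : (swap P).natDegree ≠ 0

theorem Mixed.swap {P : K[X][Y]} (h : Mixed P) : Mixed (Bivariate.swap P) := by
  refine ⟨?_, h.degX, ?_⟩
  · exact (MulEquiv.irreducible_iff (Bivariate.swap (R := K)).toMulEquiv).2 h.irr
  · rw [swap_swap_apply]
    exact h.degY

theorem Mixed.not_dvd_C {P : K[X][Y]} (h : Mixed P) {f : K[X]} (hf : f ≠ 0) : ¬ P ∣ C f := by
  rintro ⟨Q, hQ⟩
  have h0 : C f ≠ 0 := C_ne_zero.2 hf
  have hP0 : P ≠ 0 := h.irr.ne_zero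
  have hQ0 : Q ≠ 0 := by
    rintro rfl
    rw [mul_zero] at hQ
    exact h0 hQ
  have h1 := congrArg natDegree hQ
  rw [natDegree_C, natDegree_mul hP0 hQ0] at h1
  exact h.degY (by omega)

theorem Mixed.not_dvd_map {P : K[X][Y]} (h : Mixed P) {f : K[X]} (hf : f ≠ 0) :
    ¬ P ∣ f.map C := by
  rintro ⟨Q, hQ⟩
  have h1 : Bivariate.swap (f.map C) = Bivariate.swap P * Bivariate.swap Q := by
    rw [hQ, map_mul]
  rw [swap_map_C] at h1
  exact h.swap.not_dvd_C hf ⟨_, h1⟩

variable [DecidableEq K]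

theorem alp_ne_zero (O : Finset (K × K)) : alp O ≠ 0 := by
  unfold alp
  rw [Finset.prod_ne_zero_iff]
  exact fun a _ => X_sub_C_ne_zero a

theorem aevalAeval_hom {E : Type*} [CommRing E] [Algebra K E] (φ : K[X][Y] →ₐ[K] E)
    (Q : K[X][Y]) : Q.aevalAeval (φ (C X)) (φ Y) = φ Q := by
  have h1 : (aevalAeval (φ (C X)) (φ Y) : K[X][Y] →ₐ[K] E) = φ := by
    apply (aevalAevalEquiv K _).symm.injective
    rw [show (aevalAeval (φ (C X)) (φ Y) : K[X][Y] →ₐ[K] E) =
      aevalAevalEquiv K _ (φ (C X), φ Y) from rfl, Equiv.symm_apply_apply]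
    rfl
  rw [h1]

/-- the function field of the curve -/
theorem exists_field {P : K[X][Y]} (hm : Mixed P) : ∃ (E : Type u) (_ : Field E) (_ : Algebra K E)
    (x y : E), ∀ Q : K[X][Y], Q.aevalAeval x y = 0 ↔ P ∣ Q := by
  have hprime : Prime P := hm.irr.prime
  have : IsDomain (AdjoinRoot P) := AdjoinRoot.isDomain_of_prime hprime
  let ψ : K[X][Y] →+* FractionRing (AdjoinRoot P) :=
    (algebraMap (AdjoinRoot P) (FractionRing (AdjoinRoot P))).comp (AdjoinRoot.mk P)
  let φ : K[X][Y] →ₐ[K] FractionRing (AdjoinRoot P) :=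
    { ψ with
      commutes' := fun c => by
        change algebraMap (AdjoinRoot P) (FractionRing (AdjoinRoot P))
          (AdjoinRoot.mk P (algebraMap K K[X][Y] c)) = _
        rw [IsScalarTower.algebraMap_apply K (AdjoinRoot P) (FractionRing (AdjoinRoot P))]
        rfl }
  refine ⟨FractionRing (AdjoinRoot P), inferInstance, inferInstance, φ (C X), φ Y, fun Q => ?_⟩
  rw [aevalAeval_hom]
  change algebraMap (AdjoinRoot P) (FractionRing (AdjoinRoot P)) (AdjoinRoot.mk P Q) = 0 ↔ _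
  rw [map_eq_zero_iff _ (IsFractionRing.injective (AdjoinRoot P) (FractionRing (AdjoinRoot P))),
    AdjoinRoot.mk_eq_zero]

/-- two good sets with a relation between their degrees give a separated relation modulo `P` -/
theorem exists_const [IsAlgClosed K] {P : K[X][Y]} (hm : Mixed P) {O₁ O₂ : Finset (K × K)} (h₁ : Good P O₁)
    (h₂ : Good P O₂) {e₁ e₂ : ℕ} (hx' : e₁ * (fstS O₁).card = e₂ * (fstS O₂).card)
    (hy' : e₁ * (fstS (swp O₁)).card = e₂ * (fstS (swp O₂)).card) :
    ∃ c : K, c ≠ 0 ∧ P ∣ C (alp O₁) ^ e₁ * (alp (swp O₂)).map C ^ e₂ -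
      CC c * (C (alp O₂) ^ e₂ * (alp (swp O₁)).map C ^ e₁) := by
  classical
  obtain ⟨E, _, _, x, y, hker⟩ := exists_field hm
  have hP : P.aevalAeval x y = 0 := (hker P).2 dvd_rfl
  have hxf : ∀ f : K[X], f ≠ 0 → aeval x f ≠ 0 := by
    intro f hf h0
    rw [← aevalAeval_C (R := K) x y, hker] at h0
    exact hm.not_dvd_C hf h0
  have hyf : ∀ f : K[X], f ≠ 0 → aeval y f ≠ 0 := by
    intro f hf h0
    rw [← aevalAeval_map_C (K := K) x y, hker] at h0
    exact hm.not_dvd_map hf h0
  have hnum : aeval x (alp O₁) ^ e₁ * aeval y (alp (swp O₂)) ^ e₂ ≠ 0 :=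
    mul_ne_zero (pow_ne_zero _ (hxf _ (alp_ne_zero _))) (pow_ne_zero _ (hyf _ (alp_ne_zero _)))
  have hden : aeval x (alp O₂) ^ e₂ * aeval y (alp (swp O₁)) ^ e₁ ≠ 0 :=
    mul_ne_zero (pow_ne_zero _ (hxf _ (alp_ne_zero _))) (pow_ne_zero _ (hyf _ (alp_ne_zero _)))
  obtain ⟨c, hc⟩ := mem_const (K := K) (u := (aeval x (alp O₁) ^ e₁ * aeval y (alp (swp O₂)) ^ e₂) /
    (aeval x (alp O₂) ^ e₂ * aeval y (alp (swp O₁)) ^ e₁)) (by
      intro V hV
      rw [← V.valuation_le_one_iff, map_div₀, unit_of_good h₁ h₂ hV hP hx' hy', div_self]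
      rwa [Ne, Valuation.zero_iff])
  refine ⟨c, ?_, ?_⟩
  · rintro rfl
    rw [map_zero, eq_comm, div_eq_zero_iff] at hc
    exact hc.elim hnum hden
  · rw [← hker, map_sub, map_mul, map_pow, map_pow, map_mul, map_mul, map_pow, map_pow,
      aevalAeval_C, aevalAeval_C, aevalAeval_map_C, aevalAeval_map_C, aevalAeval_C, aeval_C,
      hc, div_mul_cancel₀ _ hden, sub_self]

end Pool.Agent.K7.H11.FO
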