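import Mathlib
import Pool.Agent.K7.H11.FO.Unit

set_option autoImplicit false
set_option linter.unusedSectionVars false

open Polynomial Polynomial.Bivariate

namespace Pool.Agent.K7.H11.FO

universe u

variable {K : Type u} [Field K]

theorem clear_den (G : (FractionRing K[X])[X]) : ∃ (r : K[X]) (_ : r ≠ 0) (H : K[X][Y]),
    H.map (algebraMap K[X] (FractionRing K[X])) =
      C (algebraMap K[X] (FractionRing K[X]) r) * G := by
  obtain ⟨b, hb⟩ := IsLocalization.integerNormalization_map_to_map (nonZeroDivisors K[X]) G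
  refine ⟨b, nonZeroDivisors.ne_zero b.2, _, hb.trans ?_⟩
  rw [← smul_eq_C_mul, algebraMap_smul]

/-- elimination -/
theorem exists_elim {P : K[X][Y]} (hm : Mixed P) {Q : K[X][Y]} (hQ : ¬ P ∣ Q) :
    ∃ (r : K[X]) (_ : r ≠ 0) (U V : K[X][Y]), C r = U * P + V * Q := by
  set i := algebraMap K[X] (FractionRing K[X]) with hi
  have hinj : Function.Injective i := IsFractionRing.injective _ _
  have hinj' : Function.Injective (map i) := map_injective _ hinj
  have hprime : Prime P := hm.irr.prime
  have hirr : Irreducible (P.map i) :=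
    ((hm.irr.isPrimitive hm.degY).irreducible_iff_irreducible_map_fraction_map).1 hm.irr
  by_cases hc : IsCoprime (P.map i) (Q.map i)
  · obtain ⟨u, v, huv⟩ := hc
    obtain ⟨r, hr, u', hu'⟩ := clear_den u
    obtain ⟨s, hs, v', hv'⟩ := clear_den v
    refine ⟨r * s, mul_ne_zero hr hs, C s * u', C r * v', hinj' ?_⟩
    rw [Polynomial.map_add, Polynomial.map_mul, Polynomial.map_mul, Polynomial.map_mul,
      Polynomial.map_mul, map_C, map_C, map_C, hu', hv', map_mul, C_mul]
    calc C (i r) * C (i s) = C (i r) * C (i s) * (u * P.map i + v * Q.map i) := by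
          rw [huv, mul_one]
      _ = _ := by ring
  · exfalso
    have hd : P.map i ∣ Q.map i := by
      by_contra hnd
      exact hc ((hirr.coprime_iff_not_dvd).2 hnd)
    obtain ⟨G, hG⟩ := hd
    obtain ⟨r, hr, H, hH⟩ := clear_den G
    have h1 : C r * Q = P * H := by
      apply hinj'
      rw [Polynomial.map_mul, Polynomial.map_mul, map_C, hG, hH]
      ring
    rcases hprime.dvd_or_dvd ⟨H, h1⟩ with h2 | h2
    · exact hm.not_dvd_C hr h2
    · exact hQ h2

theorem map_eval_ne_zero {P : K[X][Y]} (hm : Mixed P) (a : K) : P.map (evalRingHom a) ≠ 0 := by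
  intro h
  obtain ⟨U, hU⟩ := exists_decomp P a
  rw [h, Polynomial.map_zero, add_zero] at hU
  rcases hm.irr.isUnit_or_isUnit hU with h1 | h1
  · have h2 := natDegree_eq_zero_of_isUnit h1
    rw [isUnit_iff] at h1
    obtain ⟨f, hf, h3⟩ := h1
    have h4 := C_injective h3
    rw [h4] at hf
    exact not_isUnit_X_sub_C a hf
  · have h2 := natDegree_eq_zero_of_isUnit h1
    have h3 : P.natDegree = 0 := by
      rw [hU, natDegree_mul (C_ne_zero.2 (X_sub_C_ne_zero a)) h1.ne_zero, natDegree_C, h2]
    exact hm.degY h3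

/-- finitely many common zeros -/
theorem finite_zeros {P : K[X][Y]} (hm : Mixed P) {Q : K[X][Y]} (hQ : ¬ P ∣ Q) :
    {o : K × K | P.evalEval o.1 o.2 = 0 ∧ Q.evalEval o.1 o.2 = 0}.Finite := by
  classical
  obtain ⟨r, hr, U, V, hUV⟩ := exists_elim hm hQ
  have hfin : ((r.roots.toFinset : Set K).Finite) := Finset.finite_toSet _
  refine Set.Finite.subset (hfin.biUnion fun a _ =>
    ((P.map (evalRingHom a)).roots.toFinset.finite_toSet.image fun b => (a, b))) ?_
  rintro ⟨a, b⟩ ⟨h1, h2⟩
  simp only at h1 h2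
  rw [Set.mem_iUnion₂]
  refine ⟨a, ?_, ?_⟩
  · rw [Finset.mem_coe, Multiset.mem_toFinset, mem_roots hr, IsRoot]
    have h3 := congrArg (evalEval a b) hUV
    rw [evalEval_C, evalEval_add, evalEval_mul, evalEval_mul, h1, h2, mul_zero, mul_zero,
      add_zero] at h3
    exact h3
  · refine ⟨b, ?_, rfl⟩
    rw [Finset.mem_coe, Multiset.mem_toFinset, mem_roots (map_eval_ne_zero hm a), IsRoot,
      map_evalRingHom_eval]
    exact h1

/-- `P` does not divide its derivative -/
theorem not_dvd_derivative [CharZero K] {P : K[X][Y]} (hm : Mixed P) : ¬ P ∣ derivative P := by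
  intro h
  have h1 : derivative P = 0 := by
    by_contra hne
    have h2 := natDegree_le_of_dvd h hne
    have h3 := natDegree_derivative_lt (p := P) hm.degY
    omega
  have h2 := natDegree_eq_zero_of_derivative_eq_zero h1
  exact hm.degY h2

theorem finite_ram [CharZero K] {P : K[X][Y]} (hm : Mixed P) :
    {o : K × K | P.evalEval o.1 o.2 = 0 ∧ (derivative P).evalEval o.1 o.2 = 0}.Finite :=
  finite_zeros hm (not_dvd_derivative hm)

end Pool.Agent.K7.H11.FO
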