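import Mathlib
import Pool.Agent.K7.H11.FO.Fin

set_option autoImplicit false
set_option linter.unusedSectionVars false

open Polynomial Polynomial.Bivariate
open scoped LinearAlgebra.Projectivization

namespace Pool.Agent.K7.H11.FO

universe u

variable {K : Type u} [Field K]

/-- The value of the bihomogenization `x₀ ^ deg_x p * y₀ ^ deg_y p * p (x₁ / x₀, y₁ / y₀)` at the
vectors `x = (x₀, x₁)` and `y = (y₀, y₁)`; the coefficient of `x ^ i y ^ j` in `p` is
`(p.coeff j).coeff i`, `deg_y p = p.natDegree` and `deg_x p = (swap p).natDegree`. -/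
noncomputable def bihom (p : K[X][Y]) (x y : Fin 2 → K) : K :=
  ∑ j ∈ Finset.range (p.natDegree + 1), ∑ i ∈ Finset.range ((swap p).natDegree + 1),
    (p.coeff j).coeff i * (x 1 ^ i * x 0 ^ ((swap p).natDegree - i)) *
      (y 1 ^ j * y 0 ^ (p.natDegree - j))

/-- The curve in `ℙ¹ × ℙ¹` defined by the bihomogenization of `p`. -/
def Curve (p : K[X][Y]) : Set (ℙ K (Fin 2 → K) × ℙ K (Fin 2 → K)) :=
  {P | bihom p P.1.rep P.2.rep = 0}

/-- Two different points of the curve are joined by an edge if they have the same first or the same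
second coordinate. -/
def orbitGraph (p : K[X][Y]) : SimpleGraph (Curve p) where
  Adj P Q := P ≠ Q ∧ (P.1.1 = Q.1.1 ∨ P.1.2 = Q.1.2)
  symm := ⟨fun _ _ h => ⟨h.1.symm, h.2.imp Eq.symm Eq.symm⟩⟩
  loopless := ⟨fun _ h => h.1 rfl⟩

theorem coeff_swap (p : K[X][Y]) (i j : ℕ) : ((swap p).coeff i).coeff j = (p.coeff j).coeff i := by
  induction p using Polynomial.induction_on' with
  | add p q hp hq => simp [hp, hq]
  | monomial n f =>
    induction f using Polynomial.induction_on' with
    | add f g hf hg => simp [hf, hg]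
    | monomial m r =>
      rw [swap_monomial_monomial, coeff_monomial, coeff_monomial]
      by_cases h1 : m = i <;> by_cases h2 : n = j <;> simp [h1, h2, coeff_monomial]

theorem bihom_swap (p : K[X][Y]) (x y : Fin 2 → K) : bihom (swap p) y x = bihom p x y := by
  unfold bihom
  rw [Finset.sum_comm, swap_swap_apply]
  refine Finset.sum_congr rfl fun j _ => Finset.sum_congr rfl fun i _ => ?_
  rw [coeff_swap]
  ring

theorem bihom_smul_left (p : K[X][Y]) (x y : Fin 2 → K) (c : K) :
    bihom p (c • x) y = c ^ (swap p).natDegree * bihom p x y := by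
  unfold bihom
  rw [Finset.mul_sum]
  refine Finset.sum_congr rfl fun j _ => ?_
  rw [Finset.mul_sum]
  refine Finset.sum_congr rfl fun i hi => ?_
  rw [Finset.mem_range] at hi
  obtain ⟨k, hk⟩ := Nat.exists_eq_add_of_le (Nat.lt_succ_iff.1 hi)
  rw [hk, Nat.add_sub_cancel_left]
  simp only [Pi.smul_apply, smul_eq_mul]
  ring

theorem bihom_smul_right (p : K[X][Y]) (x y : Fin 2 → K) (c : K) :
    bihom p x (c • y) = c ^ p.natDegree * bihom p x y := by
  rw [← bihom_swap, bihom_smul_left, swap_swap_apply, bihom_swap]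

theorem bihom_rep (p : K[X][Y]) {x y : Fin 2 → K} (hx : x ≠ 0) (hy : y ≠ 0) :
    bihom p (Projectivization.mk K x hx).rep (Projectivization.mk K y hy).rep = 0 ↔
      bihom p x y = 0 := by
  obtain ⟨a, ha⟩ := Projectivization.exists_smul_eq_mk_rep K x hx
  obtain ⟨b, hb⟩ := Projectivization.exists_smul_eq_mk_rep K y hy
  rw [← ha, ← hb]
  have h1 : bihom p (a • x) (b • y) =
      (a : K) ^ (swap p).natDegree * ((b : K) ^ p.natDegree * bihom p x y) := by
    rw [← bihom_smul_right, ← bihom_smul_left]
    rfl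
  rw [h1]
  simp

/-- the affine points -/
def pt (a : K) : ℙ K (Fin 2 → K) :=
  Projectivization.mk K ![1, a] (fun h => one_ne_zero (congrFun h 0))

/-- the point at infinity -/
def inf (K : Type u) [Field K] : ℙ K (Fin 2 → K) :=
  Projectivization.mk K ![0, 1] (fun h => one_ne_zero (congrFun h 1))

theorem pt_or_inf (Q : ℙ K (Fin 2 → K)) : (∃ a, Q = pt a) ∨ Q = inf K := by
  induction Q using Projectivization.ind with
  | h v hv =>
    by_cases h0 : v 0 = 0
    · right
      unfold inf
      rw [Projectivization.mk_eq_mk_iff']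
      refine ⟨v 1, ?_⟩
      funext i
      fin_cases i <;> simp [h0]
    · left
      refine ⟨v 1 / v 0, ?_⟩
      unfold pt
      rw [Projectivization.mk_eq_mk_iff']
      refine ⟨v 0, ?_⟩
      funext i
      fin_cases i <;> simp [h0]
      field_simp

theorem pt_injective : Function.Injective (pt (K := K)) := by
  intro a b h
  unfold pt at h
  rw [Projectivization.mk_eq_mk_iff'] at h
  obtain ⟨c, hc⟩ := h
  have h0 := congrFun hc 0
  have h1 := congrFun hc 1
  simp at h0 h1
  rw [h0, one_mul] at h1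
  exact h1.symm

theorem pt_ne_inf (a : K) : pt a ≠ inf K := by
  intro h
  unfold pt inf at h
  rw [Projectivization.mk_eq_mk_iff'] at h
  obtain ⟨c, hc⟩ := h
  have h0 := congrFun hc 0
  simp at h0

theorem natDegree_coeff_le (p : K[X][Y]) (j : ℕ) : (p.coeff j).natDegree ≤ (swap p).natDegree := by
  rw [natDegree_le_iff_coeff_eq_zero]
  intro i hi
  rw [← coeff_swap, coeff_eq_zero_of_natDegree_lt hi, coeff_zero]

theorem bihom_aff (p : K[X][Y]) (a b : K) : bihom p ![1, a] ![1, b] = p.evalEval a b := by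
  unfold bihom evalEval
  conv_rhs => rw [p.as_sum_range_C_mul_X_pow]
  rw [eval_finset_sum, eval_finset_sum]
  refine Finset.sum_congr rfl fun j _ => ?_
  rw [eval_mul, eval_mul, eval_C, eval_pow, eval_X, eval_pow, eval_C,
    eval_eq_sum_range' (Nat.lt_succ_of_le (natDegree_coeff_le p j)), Finset.sum_mul]
  refine Finset.sum_congr rfl fun i _ => ?_
  simp

theorem bihom_aff_inf (p : K[X][Y]) (a : K) :
    bihom p ![1, a] ![0, 1] = p.leadingCoeff.eval a := by
  unfold bihom
  rw [Finset.sum_range_succ, Finset.sum_eq_zero, zero_add, leadingCoeff,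
    eval_eq_sum_range' (Nat.lt_succ_of_le (natDegree_coeff_le p _))]
  · refine Finset.sum_congr rfl fun i _ => ?_
    simp
  · intro j hj
    rw [Finset.mem_range] at hj
    refine Finset.sum_eq_zero fun i _ => ?_
    simp [Nat.sub_ne_zero_of_lt hj]

theorem mem_aff (p : K[X][Y]) (a b : K) : (pt a, pt b) ∈ Curve p ↔ p.evalEval a b = 0 := by
  change bihom p (pt a).rep (pt b).rep = 0 ↔ _
  unfold pt
  rw [bihom_rep, bihom_aff]

theorem mem_aff_inf (p : K[X][Y]) (a : K) :
    (pt a, inf K) ∈ Curve p ↔ p.leadingCoeff.eval a = 0 := by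
  change bihom p (pt a).rep (inf K).rep = 0 ↔ _
  unfold pt inf
  rw [bihom_rep, bihom_aff_inf]

theorem mem_inf_aff (p : K[X][Y]) (b : K) :
    (inf K, pt b) ∈ Curve p ↔ (swap p).leadingCoeff.eval b = 0 := by
  change bihom p (inf K).rep (pt b).rep = 0 ↔ _
  rw [← bihom_swap]
  unfold pt inf
  rw [bihom_rep, bihom_aff_inf]

/-- the bad points: infinite or ramified -/
def Bad (p : K[X][Y]) : Set (Curve p) :=
  {P | P.1.1 = inf K ∨ P.1.2 = inf K ∨ ∃ a b, P.1 = (pt a, pt b) ∧
    ((derivative p).evalEval a b = 0 ∨ (derivative (swap p)).evalEval b a = 0)}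

theorem finite_bad [CharZero K] {p : K[X][Y]} (hm : Mixed p) : (Bad p).Finite := by
  classical
  have h1 : ((fun a : K => (pt a, inf K)) '' {a | p.leadingCoeff.eval a = 0}).Finite := by
    apply Set.Finite.image
    refine (p.leadingCoeff.roots.toFinset.finite_toSet).subset fun a ha => ?_
    rw [Finset.mem_coe, Multiset.mem_toFinset, mem_roots (leadingCoeff_ne_zero.2 hm.irr.ne_zero)]
    exact ha
  have h2 : ((fun b : K => (inf K, pt b)) '' {b | (swap p).leadingCoeff.eval b = 0}).Finite := by
    apply Set.Finite.image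
    refine ((swap p).leadingCoeff.roots.toFinset.finite_toSet).subset fun a ha => ?_
    rw [Finset.mem_coe, Multiset.mem_toFinset,
      mem_roots (leadingCoeff_ne_zero.2 hm.swap.irr.ne_zero)]
    exact ha
  have h3 := (finite_ram hm).image fun o : K × K => (pt o.1, pt o.2)
  have h4 := (finite_ram hm.swap).image fun o : K × K => (pt o.2, pt o.1)
  have h5 := (((h1.union h2).union (h3.union h4)).union (Set.finite_singleton (inf K, inf K)))
  refine Set.Finite.of_finite_image (f := Subtype.val) (h5.subset ?_)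
    Subtype.val_injective.injOn
  rintro _ ⟨⟨⟨P, Q⟩, hPQ⟩, hbad, rfl⟩
  simp only
  rcases pt_or_inf P with ⟨a, rfl⟩ | rfl
  · rcases pt_or_inf Q with ⟨b, rfl⟩ | rfl
    · left; right
      rcases hbad with h | h | ⟨a', b', h, h'⟩
      · exact absurd h (pt_ne_inf a)
      · exact absurd h (pt_ne_inf b)
      · simp only [Prod.mk.injEq] at h
        obtain ⟨h6, h7⟩ := h
        have h6 := pt_injective h6
        have h7 := pt_injective h7
        subst h6
        subst h7
        rw [mem_aff] at hPQ
        rcases h' with h' | h'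
        · left
          exact ⟨(a, b), ⟨hPQ, h'⟩, rfl⟩
        · right
          exact ⟨(b, a), ⟨by rw [evalEval_swap]; exact hPQ, h'⟩, rfl⟩
    · left; left; left
      exact ⟨a, (mem_aff_inf p a).1 hPQ, rfl⟩
  · rcases pt_or_inf Q with ⟨b, rfl⟩ | rfl
    · left; left; right
      exact ⟨b, (mem_inf_aff p b).1 hPQ, rfl⟩
    · right
      rfl

end Pool.Agent.K7.H11.FO
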