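import Mathlib
import Pool.Agent.K7.H11.FO.Curve

set_option autoImplicit false
set_option linter.unusedSectionVars false

open Polynomial Polynomial.Bivariate
open scoped LinearAlgebra.Projectivization

namespace Pool.Agent.K7.H11.FO

universe u

variable {K : Type u} [Field K]

/-- The field `K(x, y)`. -/
abbrev RatXY (K : Type u) [Field K] : Type u := FractionRing K[X][Y]

/-- The element `x` of `K(x, y)`. -/
noncomputable def xx (K : Type u) [Field K] : RatXY K := algebraMap K[X][Y] (RatXY K) (C X)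

/-- The element `y` of `K(x, y)`. -/
noncomputable def yy (K : Type u) [Field K] : RatXY K := algebraMap K[X][Y] (RatXY K) Y

/-- The set `⟨p⟩`: the rational functions whose reduced denominator is not divisible by `p` and whose
reduced numerator is a multiple of `p`. -/
def Angle (p : K[X][Y]) : Set (RatXY K) :=
  {q | ¬ p ∣ (IsFractionRing.den K[X][Y] q : K[X][Y]) ∧ p ∣ IsFractionRing.num K[X][Y] q}

/-- The field of separated multiples `F(p)`, as a set of pairs `(f, g)` in `K(x) × K(y)`. -/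
def SepMult (p : K[X][Y]) : Set (RatXY K × RatXY K) :=
  {h | h.1 ∈ IntermediateField.adjoin K {xx K} ∧ h.2 ∈ IntermediateField.adjoin K {yy K} ∧
    h.1 - h.2 ∈ Angle p}

/-- `F(p)` consists only of the constant pairs. -/
def TrivialSepMult (p : K[X][Y]) : Prop :=
  ∀ h ∈ SepMult p, ∃ c : K, h = (algebraMap K (RatXY K) c, algebraMap K (RatXY K) c)

theorem mem_angle {p : K[X][Y]} (hp : Prime p) {q : RatXY K} {N D : K[X][Y]}
    (hq : q * algebraMap K[X][Y] (RatXY K) D = algebraMap K[X][Y] (RatXY K) N) (hN : p ∣ N)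
    (hD : ¬ p ∣ D) : q ∈ Angle p := by
  set n := IsFractionRing.num K[X][Y] q with hn
  set d : K[X][Y] := (IsFractionRing.den K[X][Y] q : K[X][Y]) with hd
  have hd0 : algebraMap K[X][Y] (RatXY K) d ≠ 0 := by
    rw [Ne, map_eq_zero_iff _ (IsFractionRing.injective K[X][Y] (RatXY K))]
    exact nonZeroDivisors.ne_zero (IsFractionRing.den K[X][Y] q).2
  have h1 : algebraMap K[X][Y] (RatXY K) n = q * algebraMap K[X][Y] (RatXY K) d := by
    have h2 := IsFractionRing.mk'_num_den' K[X][Y] q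
    rw [← hn, ← hd] at h2
    rw [← h2, div_mul_cancel₀ _ hd0]
  have h2 : n * D = d * N := by
    apply IsFractionRing.injective K[X][Y] (RatXY K)
    rw [map_mul, map_mul, h1, ← hq]
    ring
  have h3 : p ∣ n := by
    rcases hp.dvd_or_dvd (h2 ▸ Dvd.dvd.mul_left hN d : p ∣ n * D) with h | h
    · exact h
    · exact absurd h hD
  refine ⟨fun h4 => ?_, h3⟩
  have h5 := IsFractionRing.num_den_reduced K[X][Y] q h3 h4
  exact hp.not_isUnit h5

theorem algebraMap_C_mem (f : K[X]) :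
    algebraMap K[X][Y] (RatXY K) (C f) ∈ IntermediateField.adjoin K {xx K} := by
  have h1 : algebraMap K[X][Y] (RatXY K) (C f) = aeval (xx K) f := by
    unfold xx
    rw [show (C X : K[X][Y]) = algebraMap K[X] K[X][Y] X from rfl,
      show (C f : K[X][Y]) = algebraMap K[X] K[X][Y] f from rfl,
      aeval_algebraMap_apply, aeval_algebraMap_apply, aeval_X_left_apply]
  rw [h1]
  exact IntermediateField.algebra_adjoin_le_adjoin K _ (aeval_mem_adjoin_singleton K _)

theorem algebraMap_map_mem (f : K[X]) :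
    algebraMap K[X][Y] (RatXY K) (f.map C) ∈ IntermediateField.adjoin K {yy K} := by
  have h1 : algebraMap K[X][Y] (RatXY K) (f.map C) = aeval (yy K) f := by
    unfold yy
    rw [aeval_algebraMap_apply]
    congr 1
  rw [h1]
  exact IntermediateField.algebra_adjoin_le_adjoin K _ (aeval_mem_adjoin_singleton K _)

/-- two good sets with disjoint first coordinates give a nontrivial pair in `F(p)` -/
theorem not_trivial [IsAlgClosed K] [DecidableEq K] {p : K[X][Y]} (hm : Mixed p)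
    {O₁ O₂ : Finset (K × K)} (h₁ : Good p O₁) (h₂ : Good p O₂) (hne₁ : O₁.Nonempty)
    (hne₂ : O₂.Nonempty) (hdis : Disjoint (fstS O₁) (fstS O₂)) : ¬ TrivialSepMult p := by
  intro htriv
  have c1 := h₁.left.card
  have c2 := h₂.left.card
  have c3 := h₁.right.card
  have c4 := h₂.right.card
  rw [card_swp] at c3 c4
  obtain ⟨c, hc, hdvd⟩ := exists_const hm h₁ h₂ (e₁ := O₂.card) (e₂ := O₁.card)
    (by rw [c2]; conv_rhs => rw [c1]
        ring)
    (by rw [c4]; conv_rhs => rw [c3]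
        ring)
  set i := algebraMap K[X][Y] (RatXY K) with hi
  have hinj : Function.Injective i := IsFractionRing.injective K[X][Y] (RatXY K)
  have hp : Prime p := hm.irr.prime
  have hA₂ : i (C (alp O₂)) ≠ 0 := by
    rw [Ne, map_eq_zero_iff _ hinj, C_eq_zero]
    exact alp_ne_zero _
  have hB₂ : i ((alp (swp O₂)).map C) ≠ 0 := by
    rw [Ne, map_eq_zero_iff _ hinj, Polynomial.map_eq_zero_iff C_injective]
    exact alp_ne_zero _
  obtain ⟨c', hc'⟩ := htriv (i (C (alp O₁)) ^ O₂.card / i (C (alp O₂)) ^ O₁.card,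
    i (CC c) * (i ((alp (swp O₁)).map C) ^ O₂.card / i ((alp (swp O₂)).map C) ^ O₁.card)) (by
      refine ⟨?_, ?_, ?_⟩
      · exact div_mem (pow_mem (algebraMap_C_mem _) _) (pow_mem (algebraMap_C_mem _) _)
      · refine mul_mem ?_ (div_mem (pow_mem (algebraMap_map_mem _) _)
          (pow_mem (algebraMap_map_mem _) _))
        have : (CC c : K[X][Y]) = (C c : K[X]).map C := by simp [CC]
        rw [this]
        exact algebraMap_map_mem _
      · refine mem_angle hp (D := C (alp O₂) ^ O₁.card * (alp (swp O₂)).map C ^ O₁.card) ?_ hdvd ?_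
        · simp only
          rw [map_sub, map_mul, map_mul, map_mul, map_mul, map_pow, map_pow, map_pow, map_pow, ← hi]
          field_simp
        · intro h
          rcases hp.dvd_or_dvd h with h | h
          · exact hm.not_dvd_C (alp_ne_zero _) (hp.dvd_of_dvd_pow h)
          · exact hm.not_dvd_map (alp_ne_zero _) (hp.dvd_of_dvd_pow h))
  have h1 : i (C (alp O₁)) ^ O₂.card / i (C (alp O₂)) ^ O₁.card = algebraMap K (RatXY K) c' :=
    congrArg Prod.fst hc'
  rw [div_eq_iff (pow_ne_zero _ hA₂), IsScalarTower.algebraMap_apply K K[X][Y] (RatXY K), ← hi,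
    ← map_pow i, ← map_pow i, ← map_mul i] at h1
  have h2 := hinj h1
  rw [show algebraMap K K[X][Y] c' = C (C c') from rfl, ← C_pow, ← C_pow, ← C_mul] at h2
  have h3 := C_injective h2
  obtain ⟨⟨a, b⟩, hab⟩ := hne₁
  have haO : a ∈ fstS O₁ := mem_fstS.2 ⟨b, hab⟩
  have h4 := congrArg (eval a) h3
  have h5 : (alp O₁).eval a = 0 := by
    unfold alp
    rw [eval_prod]
    exact Finset.prod_eq_zero haO (by simp)
  have h6 : (alp O₂).eval a ≠ 0 := by
    unfold alp
    rw [eval_prod, Finset.prod_ne_zero_iff]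
    intro a' ha'
    rw [eval_sub, eval_X, eval_C, sub_ne_zero]
    rintro rfl
    exact Finset.disjoint_left.1 hdis haO ha'
  rw [eval_pow, h5, zero_pow hne₂.card_pos.ne', eval_mul, eval_C, eval_pow] at h4
  have h7 : c' = 0 := by
    by_contra hne
    exact mul_ne_zero hne (pow_ne_zero _ h6) h4.symm
  rw [h7, C_0, zero_mul] at h3
  exact pow_ne_zero _ (alp_ne_zero O₁) h3

theorem adj_of {p : K[X][Y]} {P Q : Curve p} (h : P.1.1 = Q.1.1 ∨ P.1.2 = Q.1.2) :
    (orbitGraph p).connectedComponentMk P = (orbitGraph p).connectedComponentMk Q := by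
  by_cases hPQ : P = Q
  · rw [hPQ]
  · exact SimpleGraph.ConnectedComponent.sound (SimpleGraph.Adj.reachable ⟨hPQ, h⟩)

/-- the set of the affine points of a finite orbit -/
theorem exists_good [CharZero K] [DecidableEq K] {p : K[X][Y]}
    (c : (orbitGraph p).ConnectedComponent) (hc : c.supp.Finite)
    (hgood : ∀ P ∈ Bad p, (orbitGraph p).connectedComponentMk P ≠ c) :
    ∃ O : Finset (K × K), Good p O ∧ O.Nonempty ∧ ∀ a ∈ fstS O, ∀ P : Curve p, P.1.1 = pt a →
      (orbitGraph p).connectedComponentMk P = c := by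
  let S : Set (K × K) := {o | ∃ h : (pt o.1, pt o.2) ∈ Curve p,
    (orbitGraph p).connectedComponentMk ⟨(pt o.1, pt o.2), h⟩ = c}
  have hS : S.Finite := by
    refine Set.Finite.of_finite_image (f := fun o : K × K => (pt o.1, pt o.2))
      ((hc.image Subtype.val).subset ?_) ?_
    · rintro _ ⟨o, ⟨h, h'⟩, rfl⟩
      exact ⟨⟨_, h⟩, h', rfl⟩
    · rintro ⟨a, b⟩ _ ⟨a', b'⟩ _ h
      simp only [Prod.mk.injEq] at h
      rw [pt_injective h.1, pt_injective h.2]
  have hmem : ∀ {a b : K}, (a, b) ∈ hS.toFinset ↔ ∃ h : (pt a, pt b) ∈ Curve p,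
    (orbitGraph p).connectedComponentMk ⟨(pt a, pt b), h⟩ = c := fun {a b} => hS.mem_toFinset
  have key : ∀ a b, (a, b) ∈ hS.toFinset → p.evalEval a b = 0 ∧ p.leadingCoeff.eval a ≠ 0 ∧
      (swap p).leadingCoeff.eval b ≠ 0 ∧ (∀ b', p.evalEval a b' = 0 → (a, b') ∈ hS.toFinset) ∧
      (∀ a', p.evalEval a' b = 0 → (a', b) ∈ hS.toFinset) ∧ (derivative p).evalEval a b ≠ 0 ∧
      (derivative (swap p)).evalEval b a ≠ 0 := by
    intro a b hab
    obtain ⟨h, hh⟩ := hmem.1 hab
    refine ⟨(mem_aff p a b).1 h, ?_, ?_, ?_, ?_, ?_, ?_⟩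
    · intro h0
      have h1 : (pt a, inf K) ∈ Curve p := (mem_aff_inf p a).2 h0
      refine hgood ⟨_, h1⟩ (Or.inr (Or.inl rfl)) ?_
      rw [← hh]
      exact adj_of (Or.inl rfl)
    · intro h0
      have h1 : (inf K, pt b) ∈ Curve p := (mem_inf_aff p b).2 h0
      refine hgood ⟨_, h1⟩ (Or.inl rfl) ?_
      rw [← hh]
      exact adj_of (Or.inr rfl)
    · intro b' hb'
      rw [hmem]
      refine ⟨(mem_aff p a b').2 hb', ?_⟩
      rw [← hh]
      exact adj_of (Or.inl rfl)
    · intro a' ha'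
      rw [hmem]
      refine ⟨(mem_aff p a' b).2 ha', ?_⟩
      rw [← hh]
      exact adj_of (Or.inr rfl)
    · intro h0
      exact hgood ⟨_, h⟩ (Or.inr (Or.inr ⟨a, b, rfl, Or.inl h0⟩)) hh
    · intro h0
      exact hgood ⟨_, h⟩ (Or.inr (Or.inr ⟨a, b, rfl, Or.inr h0⟩)) hh
  refine ⟨hS.toFinset, ⟨⟨?_, ?_, ?_, ?_⟩, ⟨?_, ?_, ?_, ?_⟩⟩, ?_, ?_⟩
  · rintro ⟨a, b⟩ h
    exact (key a b h).1
  · rintro ⟨a, b⟩ h
    exact (key a b h).2.1
  · rintro ⟨a, b⟩ h
    exact (key a b h).2.2.2.1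
  · rintro ⟨a, b⟩ h
    exact (key a b h).2.2.2.2.2.1
  · rintro ⟨b, a⟩ h
    rw [mem_swp] at h
    simp only
    rw [evalEval_swap]
    exact (key a b h).1
  · rintro ⟨b, a⟩ h
    rw [mem_swp] at h
    exact (key a b h).2.2.1
  · rintro ⟨b, a⟩ h a' ha'
    rw [mem_swp] at h ⊢
    simp only at ha'
    rw [evalEval_swap] at ha'
    exact (key a b h).2.2.2.2.1 a' ha'
  · rintro ⟨b, a⟩ h
    rw [mem_swp] at h
    exact (key a b h).2.2.2.2.2.2
  · obtain ⟨⟨⟨P, Q⟩, hPQ⟩, hc'⟩ := c.nonempty_supp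
    have hc'' : (orbitGraph p).connectedComponentMk ⟨(P, Q), hPQ⟩ = c := hc'
    rcases pt_or_inf P with ⟨a, rfl⟩ | rfl
    · rcases pt_or_inf Q with ⟨b, rfl⟩ | rfl
      · exact ⟨(a, b), hmem.2 ⟨hPQ, hc''⟩⟩
      · exact absurd hc'' (hgood _ (Or.inr (Or.inl rfl)))
    · exact absurd hc'' (hgood _ (Or.inl rfl))
  · intro a ha P hP
    obtain ⟨b, hab⟩ := mem_fstS.1 ha
    obtain ⟨h, hh⟩ := hmem.1 hab
    rw [← hh]
    exact adj_of (Or.inl hP)

/-- **Finitely many finite orbits.** -/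
theorem main [IsAlgClosed K] [CharZero K] {p : K[X][Y]} (hm : Mixed p) (htriv : TrivialSepMult p) :
    {c : (orbitGraph p).ConnectedComponent | c.supp.Finite}.Finite := by
  classical
  have hfin := (finite_bad hm).image (orbitGraph p).connectedComponentMk
  have hsub : ({c : (orbitGraph p).ConnectedComponent | c.supp.Finite} \
      (orbitGraph p).connectedComponentMk '' Bad p).Subsingleton := by
    rintro c₁ ⟨h₁, hb₁⟩ c₂ ⟨h₂, hb₂⟩
    by_contra hne
    obtain ⟨O₁, hg₁, hn₁, hO₁⟩ := exists_good c₁ h₁ fun P hP h => hb₁ ⟨P, hP, h⟩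
    obtain ⟨O₂, hg₂, hn₂, hO₂⟩ := exists_good c₂ h₂ fun P hP h => hb₂ ⟨P, hP, h⟩
    refine not_trivial hm hg₁ hg₂ hn₁ hn₂ ?_ htriv
    rw [Finset.disjoint_left]
    intro a ha₁ ha₂
    obtain ⟨b, hab⟩ := mem_fstS.1 ha₁
    have hP : (pt a, pt b) ∈ Curve p := (mem_aff p a b).2 (hg₁.left.zero _ hab)
    exact hne ((hO₁ a ha₁ ⟨_, hP⟩ rfl).symm.trans (hO₂ a ha₂ ⟨_, hP⟩ rfl))
  refine (hfin.union hsub.finite).subset fun c hc => ?_
  by_cases h : c ∈ (orbitGraph p).connectedComponentMk '' Bad p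
  · exact Or.inl h
  · exact Or.inr ⟨hc, h⟩

end Pool.Agent.K7.H11.FO
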