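import Mathlib
import Pool.Agent.K7.H11.FO.Main

/-!
# A curve without separated multiples has only finitely many finite orbits

Let `p` be an irreducible polynomial in `x` and `y` over an algebraically closed field `K` of
characteristic zero which involves both variables, and let `C` be the curve in `ℙ¹ × ℙ¹` defined by
its bihomogenization. If the field of separated multiples of `p` is trivial, then `C` has only
finitely many finite orbits.

Proof. Only finitely many points of `C` have an infinite coordinate or are zeros of a partial
derivative of `p`, so all but finitely many finite orbits avoid these points. We show that there is at
most one such orbit. For a finite orbit `O` without such points let `α` and `β` be the products of the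
`x - a` and of the `y - b`, over the different first and second coordinates of its points. All
valuations of the function field of `C` at places with finite coordinates agree on `α` and `β`: both
are local parameters at the points of `O`, and units at the other places. If `O'` is a second orbit of
this kind then, for suitable exponents, `α ^ e β' ^ e' / (α' ^ e' β ^ e)` has no zeros and no poles on
`C`, also at infinity, so it is a constant `c`, and `(α ^ e / α' ^ e', c β ^ e / β' ^ e')` is a
nonconstant element of the field of separated multiples.
-/

set_option autoImplicit false

open Polynomial Polynomial.Bivariate Pool.Agent.K7.H11.FO

namespace Pool.Agent.K7.H11.FO.FiniteOrbits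

universe u

/-- Let `K` be an algebraically closed field of characteristic zero and `p` an irreducible polynomial
in `K[x, y]` (written `K[X][Y]`, so `C` embeds `K[x]` and `map C` embeds `K[y]`) which is not in
`K[x]` or `K[y]`. If the field of separated multiples of `p` is trivial, then the curve defined by
the bihomogenization of `p` in `ℙ¹ × ℙ¹` has only finitely many finite orbits. -/
theorem result {K : Type u} [Field K] [IsAlgClosed K] [CharZero K] (p : K[X][Y])
    (hp : Irreducible p) (hx : ∀ f : K[X], p ≠ C f) (hy : ∀ f : K[X], p ≠ f.map C)
    (hF : TrivialSepMult p) :
    {c : (orbitGraph p).ConnectedComponent | c.supp.Finite}.Finite := by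
  refine main ⟨hp, fun h => ?_, fun h => ?_⟩ hF
  · rw [natDegree_eq_zero] at h
    obtain ⟨f, hf⟩ := h
    exact hx f hf.symm
  · rw [natDegree_eq_zero] at h
    obtain ⟨f, hf⟩ := h
    apply hy f
    rw [← swap_C, hf, swap_swap_apply]

end Pool.Agent.K7.H11.FO.FiniteOrbits
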